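import Mathlib
import Pool.Agent.V1130.ClassTransp

/-!
Problem MP_8fd2f5_al, Q1: for every `k > 3` the group generated by all horizontal class
transpositions of moduli at most `k` is isomorphic to the symmetric group of degree
`lcm (2, ..., k)`.
-/

namespace Pool.Agent.Results.MP_8fd2f5_al.Symmetric

open Equiv Equiv.Perm V1130.ClassTransp

/-- `τ` is the horizontal class transposition interchanging `r (m)` and `s (m)`. -/
def IsCT (m r s : ℤ) (τ : Perm ℤ) : Prop :=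
  (∀ j : ℤ, τ (r + j * m) = s + j * m ∧ τ (s + j * m) = r + j * m) ∧
    ∀ z : ℤ, ¬ z ≡ r [ZMOD m] → ¬ z ≡ s [ZMOD m] → τ z = z

/-- The group generated by all horizontal class transpositions of moduli `2, ..., k`. -/
def CT (k : ℕ) : Subgroup (Perm ℤ) :=
  Subgroup.closure {τ | ∃ m r s : ℤ, 2 ≤ m ∧ m ≤ k ∧ 0 ≤ r ∧ r < s ∧ s < m ∧ IsCT m r s τ}

/-- `lcm (2, ..., k)` -/
def N (k : ℕ) : ℕ := (Finset.Icc 2 k).lcm id

theorem isCT_T {m r s : ℤ} (h : Res m r s) : IsCT m r s (T m r s) := by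
  constructor
  · intro j
    have e1 : (r + j * m) % m = r := emod_of_eq (q := j) h.1 h.2.1 (by ring)
    have e2 : (s + j * m) % m = s := emod_of_eq (q := j) h.2.2.1 h.2.2.2.1 (by ring)
    rw [T_apply h, T_apply h, tf_left e1, tf_right h.2.2.2.2 e2]
    exact ⟨by ring, by ring⟩
  · intro z h1 h2
    rw [T_apply h, tf_other]
    · intro h3
      exact h1 (by rw [Int.ModEq, h3, Int.emod_eq_of_lt h.1 h.2.1])
    · intro h3
      exact h2 (by rw [Int.ModEq, h3, Int.emod_eq_of_lt h.2.2.1 h.2.2.2.1])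

theorem eq_T {m r s : ℤ} (h : Res m r s) {τ : Perm ℤ} (hτ : IsCT m r s τ) : τ = T m r s := by
  ext z
  rw [T_apply h]
  by_cases h1 : z % m = r
  · have e := eq_of_emod h1
    rw [tf_left h1]
    have := (hτ.1 (z / m)).1
    rw [show r + z / m * m = z by linarith] at this
    rw [this]; linarith
  · by_cases h2 : z % m = s
    · have e := eq_of_emod h2
      rw [tf_right h.2.2.2.2 h2]
      have := (hτ.1 (z / m)).2
      rw [show s + z / m * m = z by linarith] at this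
      rw [this]; linarith
    · rw [tf_other h1 h2]
      refine hτ.2 z (fun h3 => h1 ?_) (fun h3 => h2 ?_)
      · rw [Int.ModEq, Int.emod_eq_of_lt h.1 h.2.1] at h3; exact h3
      · rw [Int.ModEq, Int.emod_eq_of_lt h.2.2.1 h.2.2.2.1] at h3; exact h3

theorem T_mem_CT {k : ℕ} {m a b : ℤ} (hm : 2 ≤ m) (hmk : m ≤ k) (h : Res m a b) :
    T m a b ∈ CT k := by
  rcases lt_or_gt_of_ne h.2.2.2.2 with h1 | h1
  · exact Subgroup.subset_closure ⟨m, a, b, hm, hmk, h.1, h1, h.2.2.2.1, isCT_T h⟩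
  · rw [T_symm h]
    exact Subgroup.subset_closure ⟨m, b, a, hm, hmk, h.2.2.1, h1, h.2.1, isCT_T h.symm⟩

theorem CT_mono {k l : ℕ} (h : k ≤ l) : CT k ≤ CT l := by
  apply Subgroup.closure_mono
  rintro τ ⟨m, r, s, h1, h2, h3⟩
  exact ⟨m, r, s, h1, by omega, h3⟩

theorem CT_le {k : ℕ} {L : ℤ} (hL : ∀ m : ℤ, 2 ≤ m → m ≤ k → m ∣ L) : CT k ≤ P L := by
  rw [CT, Subgroup.closure_le]
  rintro τ ⟨m, r, s, h1, h2, h3, h4, h5, h6⟩
  rw [eq_T ⟨h3, by omega, by omega, h5, by omega⟩ h6]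
  exact P_le (by omega) (hL m h1 h2) (T_mem_P r s)

theorem dvd_N {k : ℕ} (m : ℤ) (h1 : 2 ≤ m) (h2 : m ≤ k) : m ∣ (N k : ℤ) := by
  obtain ⟨m', rfl⟩ := Int.eq_ofNat_of_zero_le (show (0 : ℤ) ≤ m by omega)
  rw [Int.natCast_dvd_natCast]
  exact Finset.dvd_lcm (f := id) (Finset.mem_Icc.2 ⟨by omega, by omega⟩)

theorem N_pos (k : ℕ) : 0 < N k := by
  rw [Nat.pos_iff_ne_zero, N, Ne, Finset.lcm_eq_zero_iff]
  simp

theorem N_succ_dvd {k : ℕ} (x : ℤ) (h1 : (N k : ℤ) ∣ x) (h2 : ((k + 1 : ℕ) : ℤ) ∣ x) :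
    (N (k + 1) : ℤ) ∣ x := by
  rw [Int.natCast_dvd] at *
  rw [N, Finset.lcm_dvd_iff]
  intro b hb
  rw [Finset.mem_Icc] at hb
  by_cases h : b = k + 1
  · rw [h]; exact h2
  · exact (Finset.dvd_lcm (f := id) (Finset.mem_Icc.2 ⟨hb.1, by omega⟩)).trans h1

theorem le_N {k : ℕ} (hk : 3 ≤ k) : k + 1 ≤ N k := by
  have h1 : k ∣ N k := Finset.dvd_lcm (f := id) (Finset.mem_Icc.2 ⟨by omega, le_rfl⟩)
  have h2 : (k - 1) ∣ N k := Finset.dvd_lcm (f := id) (Finset.mem_Icc.2 ⟨by omega, by omega⟩)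
  by_contra h
  have h3 : N k ≤ k := by omega
  have h4 : N k = k := le_antisymm h3 (Nat.le_of_dvd (N_pos k) h1)
  rw [h4] at h2
  have h5 : (k - 1) ∣ k - (k - 1) := Nat.dvd_sub h2 (dvd_refl _)
  have h6 := Nat.le_of_dvd (by omega) h5
  omega

theorem N_mono {k l : ℕ} (h : k ≤ l) : N k ≤ N l :=
  Nat.le_of_dvd (N_pos l) (Finset.lcm_mono (Finset.Icc_subset_Icc_right h))

theorem base3 (hL : (0 : ℤ) < 12) : ∃ g ∈ H (L := 12) hL (CT 4), g.IsThreeCycle := by
  have R1 : Res 3 0 1 := by refine ⟨?_, ?_, ?_, ?_, ?_⟩ <;> norm_num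
  have R2 : Res 4 0 1 := by refine ⟨?_, ?_, ?_, ?_, ?_⟩ <;> norm_num
  have R3 : Res 4 0 2 := by refine ⟨?_, ?_, ?_, ?_, ?_⟩ <;> norm_num
  have P1 : T 3 0 1 ∈ P 12 := P_le (by norm_num) (by norm_num) (T_mem_P 0 1)
  have P2 : T 4 0 1 ∈ P 12 := P_le (by norm_num) (by norm_num) (T_mem_P 0 1)
  have P3 : T 4 0 2 ∈ P 12 := P_le (by norm_num) (by norm_num) (T_mem_P 0 2)
  have H1 : res 12 hL ⟨_, P1⟩ ∈ H hL (CT 4) :=
    mem_H hL _ (T_mem_CT (by norm_num) (by norm_num) R1) _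
  have H2 : res 12 hL ⟨_, P2⟩ ∈ H hL (CT 4) :=
    mem_H hL _ (T_mem_CT (by norm_num) (by norm_num) R2) _
  have H3 : res 12 hL ⟨_, P3⟩ ∈ H hL (CT 4) :=
    mem_H hL _ (T_mem_CT (by norm_num) (by norm_num) R3) _
  set x := res 12 hL ⟨_, P1⟩
  set y := res 12 hL ⟨_, P2⟩
  set z := res 12 hL ⟨_, P3⟩
  have xv : ∀ w, ((x w : Set.Ico (0 : ℤ) 12) : ℤ) = tf 3 0 1 w := fun w => T_apply R1 w
  have yv : ∀ w, ((y w : Set.Ico (0 : ℤ) 12) : ℤ) = tf 4 0 1 w := fun w => T_apply R2 w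
  have zv : ∀ w, ((z w : Set.Ico (0 : ℤ) 12) : ℤ) = tf 4 0 2 w := fun w => T_apply R3 w
  have hW := mul_mem (mul_mem (mul_mem H1 H2) H1) H3
  refine ⟨(x * y * x * z) * (x * y * x * z), mul_mem hW hW, ?_⟩
  have key : (x * y * x * z) * (x * y * x * z) =
      swap (⟨0, by norm_num, by norm_num⟩ : Set.Ico (0 : ℤ) 12) ⟨2, by norm_num, by norm_num⟩ *
        swap (⟨0, by norm_num, by norm_num⟩ : Set.Ico (0 : ℤ) 12) ⟨1, by norm_num, by norm_num⟩ := by
    apply Equiv.ext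
    intro w
    apply Subtype.ext
    simp only [mul_apply, xv, yv, zv]
    obtain ⟨w, hw0, hw1⟩ := w
    interval_cases w <;> rfl
  rw [key]
  apply isThreeCycle_swap_mul_swap_same
  · intro h; exact absurd (congrArg Subtype.val h) (by norm_num)
  · intro h; exact absurd (congrArg Subtype.val h) (by norm_num)
  · intro h; exact absurd (congrArg Subtype.val h) (by norm_num)

theorem base_aux (L : ℤ) (hL : 0 < L) (h12 : L = 12) : H hL (CT 4) = ⊤ := by
  subst h12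
  exact top_of_threeCycle _ _ (N := 4) (m := 3) (by norm_num) (by norm_num)
      (by norm_num) (by norm_num) (by norm_num) (fun x h1 h2 => by omega)
      (fun a b h => T_mem_CT (by norm_num) (by norm_num) h)
      (fun a b h => T_mem_CT (by norm_num) (by norm_num) h) (base3 hL)

theorem base : H (L := (N 4 : ℤ)) (by exact_mod_cast N_pos 4) (CT 4) = ⊤ :=
  base_aux _ _ (by have h4 : N 4 = 12 := by decide
                   rw [h4]; rfl)

theorem top (k : ℕ) (hk : 4 ≤ k) :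
    H (L := (N k : ℤ)) (by exact_mod_cast N_pos k) (CT k) = ⊤ := by
  induction k, hk using Nat.le_induction with
  | base => exact base
  | succ k hk ih =>
    have hN6 : 6 ≤ N k := by
      have : N 4 ≤ N k := N_mono hk
      have h4 : N 4 = 12 := by decide
      omega
    have hle := le_N (show 3 ≤ k by omega)
    have hTN : ∀ a b, Res (N k : ℤ) a b → T (N k : ℤ) a b ∈ CT (k + 1) := fun a b _ =>
      CT_mono (Nat.le_succ k) (mem_of_H_top _ _ ih (T_mem_P a b))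
    have hTm : ∀ a b, Res ((k + 1 : ℕ) : ℤ) a b → T ((k + 1 : ℕ) : ℤ) a b ∈ CT (k + 1) :=
      fun a b h => T_mem_CT (by omega) le_rfl h
    have hNL : (N k : ℤ) ∣ (N (k + 1) : ℤ) :=
      Int.natCast_dvd_natCast.2 (Finset.lcm_mono (Finset.Icc_subset_Icc_right (Nat.le_succ k)))
    have hmL : ((k + 1 : ℕ) : ℤ) ∣ (N (k + 1) : ℤ) := dvd_N _ (by omega) le_rfl
    exact top_of_threeCycle _ _ (N := (N k : ℤ)) (m := ((k + 1 : ℕ) : ℤ)) (by omega) (by omega)
      (by omega) hNL hmL N_succ_dvd hTN hTm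
      (exists_threeCycle _ _ (by omega) (by omega) hNL hmL N_succ_dvd hTN hTm)

theorem result (k : ℕ) (hk : 3 < k) : Nonempty (CT k ≃* Equiv.Perm (Fin (N k))) := by
  have hL : (0 : ℤ) < (N k : ℤ) := by exact_mod_cast N_pos k
  have htop := top k hk
  have hle : CT k ≤ P (N k : ℤ) := CT_le dvd_N
  let f : CT k →* Perm (Set.Ico (0 : ℤ) (N k : ℤ)) := (res _ hL).comp (Subgroup.inclusion hle)
  have hf : Function.Bijective f := by
    constructor
    · exact (res_injective hL).comp (Subgroup.inclusion_injective hle)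
    · intro x
      have hx : x ∈ H hL (CT k) := by rw [htop]; trivial
      obtain ⟨g, hg, rfl⟩ := hx
      exact ⟨⟨g.1, hg⟩, rfl⟩
  have e : Set.Ico (0 : ℤ) (N k : ℤ) ≃ Fin (N k) := Fintype.equivFinOfCardEq (by simp)
  exact ⟨(MulEquiv.ofBijective f hf).trans e.permCongrHom⟩

end Pool.Agent.Results.MP_8fd2f5_al.Symmetric
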